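import Pool.Agent.H71.FX.Targets2

/-!
# CC: consistency
-/

set_option autoImplicit false

namespace Pool.Agent.H7.FX

open Pool.Agent.H71.PF Pool.Agent.H71.FX

private theorem md {ℓ v v' : ℕ} (hℓ : 0 < ℓ) (h : ((v : ℕ) : ZMod ℓ) = ((v' : ℕ) : ZMod ℓ))
    (h1 : v' < v + 2 * ℓ) (h2 : v < v' + 2 * ℓ) : v' = v ∨ v' = v + ℓ ∨ v = v' + ℓ := by
  rw [ZMod.natCast_eq_natCast_iff] at h
  obtain ⟨c, hc⟩ := Nat.modEq_iff_dvd.1 h
  have hℓ' : (0 : ℤ) < ℓ := by exact_mod_cast hℓ
  have h1' : (v' : ℤ) < v + 2 * ℓ := by exact_mod_cast h1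
  have h2' : (v : ℤ) < v' + 2 * ℓ := by exact_mod_cast h2
  have hc2 : c < 2 := by
    by_contra hn
    have : (ℓ : ℤ) * 2 ≤ ℓ * c := mul_le_mul_of_nonneg_left (by omega) hℓ'.le
    linarith
  have hc3 : -2 < c := by
    by_contra hn
    have : (ℓ : ℤ) * c ≤ ℓ * (-2) := mul_le_mul_of_nonneg_left (by omega) hℓ'.le
    linarith
  have hc4 : c = -1 ∨ c = 0 ∨ c = 1 := by omega
  rcases hc4 with rfl | rfl | rfl
  · right
    right
    have : (v : ℤ) = v' + ℓ := by linarith
    exact_mod_cast this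
  · left
    have : (v' : ℤ) = v := by linarith
    exact_mod_cast this
  · right
    left
    have : (v' : ℤ) = v + ℓ := by linarith
    exact_mod_cast this

private theorem pair {α : Type} {e : ℕ → α} {ℓ ρ ρ' s s' : ℕ} {z z' : α}
    (h : hh e ℓ ρ s z = hh e ℓ ρ' s' z') : z = z' ∨ ∃ v v' : ℕ, s ≤ v + ρ ∧ v ≤ s + ρ ∧ e v = z ∧
      s' ≤ v' + ρ' ∧ v' ≤ s' + ρ' ∧ e v' = z' ∧ ((v : ℕ) : ZMod ℓ) = ((v' : ℕ) : ZMod ℓ) := by
  classical
  by_cases h1 : ∃ u, s ≤ u + ρ ∧ u ≤ s + ρ ∧ e u = z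
  · by_cases h2 : ∃ u, s' ≤ u + ρ' ∧ u ≤ s' + ρ' ∧ e u = z'
    · right
      have e1 : hh e ℓ ρ s z = Sum.inr ((h1.choose : ℕ) : ZMod ℓ) := by
        unfold hh
        rw [dif_pos h1]
      have e2 : hh e ℓ ρ' s' z' = Sum.inr ((h2.choose : ℕ) : ZMod ℓ) := by
        unfold hh
        rw [dif_pos h2]
      rw [e1, e2] at h
      exact ⟨h1.choose, h2.choose, h1.choose_spec.1, h1.choose_spec.2.1, h1.choose_spec.2.2,
        h2.choose_spec.1, h2.choose_spec.2.1, h2.choose_spec.2.2, Sum.inr.inj h⟩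
    · exfalso
      unfold hh at h
      rw [dif_pos h1, dif_neg h2] at h
      exact absurd h (by simp)
  · by_cases h2 : ∃ u, s' ≤ u + ρ' ∧ u ≤ s' + ρ' ∧ e u = z'
    · exfalso
      unfold hh at h
      rw [dif_neg h1, dif_pos h2] at h
      exact absurd h (by simp)
    · left
      unfold hh at h
      rw [dif_neg h1, dif_neg h2] at h
      exact Sum.inl.inj h

private theorem build {α β : Type} {P1 P2 : α → Prop} {g g' : α → β} {R : α → α → Prop}
    (h : ∀ z z', P1 z → P2 z' → g z = g' z' → R z z') : ∀ l l' : List α, (∀ z ∈ l, P1 z) →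
    (∀ z ∈ l', P2 z) → l.map g = l'.map g' → List.Forall₂ R l l' := by
  intro l
  induction l with
  | nil =>
    intro l' _ _ he
    cases l' with
    | nil => exact List.Forall₂.nil
    | cons b l' => exact absurd he (by simp)
  | cons a l ih =>
    intro l' h1 h2 he
    cases l' with
    | nil => exact absurd he (by simp)
    | cons b l' =>
      rw [List.map_cons, List.map_cons] at he
      have h3 := List.cons.inj he
      exact List.Forall₂.cons (h a b (h1 a (List.mem_cons_self)) (h2 b (List.mem_cons_self)) h3.1)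
        (ih l' (fun z hz => h1 z (List.mem_cons_of_mem _ hz))
          (fun z hz => h2 z (List.mem_cons_of_mem _ hz)) h3.2)

private theorem indices {α γ : Type} {X : γ → Prop} {g g' : γ → α} : ∀ {l l' : List α},
    List.Forall₂ (fun z z' => ∃ u, X u ∧ g u = z ∧ g' u = z') l l' →
    ∃ L : List γ, (∀ u ∈ L, X u) ∧ L.map g = l ∧ L.map g' = l' := by
  intro l l' h
  induction h with
  | nil => exact ⟨[], by simp, rfl, rfl⟩
  | cons h1 _ ih =>
    obtain ⟨u, hu, rfl, rfl⟩ := h1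
    obtain ⟨L, hL, rfl, rfl⟩ := ih
    refine ⟨u :: L, ?_, rfl, rfl⟩
    intro x hx
    rcases List.mem_cons.1 hx with rfl | hx
    · exact hu
    · exact hL x hx

private theorem B_pos {P : Pr} (ha : P.a < P.K) : 2 ≤ P.B := by
  unfold Pr.B
  have h1 : 1 * (P.D + 2) ≤ P.K * (P.D + 2) := Nat.mul_le_mul_right _ (by omega)
  omega

private theorem plus {P : Pr} {α : Type} {m : Sk α} {e : ℕ → α} {p q s s' ρ ρ' j : ℕ}
    {l l' : List α} (ha : P.a < P.K) (hw : m.Wf P.a) (hpq : p + 6 * P.B < q)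
    (hal : Alike P m e p q) (hs1 : p + 3 * P.B ≤ s)
    (hs1' : p + 3 * P.B ≤ s') (hs2' : s' < q + 3 * P.B) (hρ : ρ ≤ P.B) (hρ' : ρ' ≤ P.B)
    (hj : j < P.J) (hl1 : 1 ≤ l.length) (hlr : l.length ≤ P.r) (hl : ∀ z ∈ l, z ∈ m.T P (e s))
    (hl' : ∀ z ∈ l', z ∈ m.T P (e s'))
    (he : l.map (hh e (q - p) ρ s) = l'.map (hh e (q - p) ρ' s'))
    (hc : s + (q - p) ≤ s' + 2 * P.B) : m.R j l ↔ m.R j l' := by
  have hB := B_pos ha
  have hF : List.Forall₂ (fun z z' => ∃ u, Ix P u ∧ Wd m e p u = z ∧ Wd m e q u = z') l l' := by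
    refine build ?_ l l' hl hl' he
    intro z z' hz hz' hzz
    obtain ⟨i, hi, k, hk, hzi⟩ := hz
    obtain ⟨i', hi', k', hk', hzi'⟩ := hz'
    rcases pair hzz with rfl | ⟨v, v', h1, h2, rfl, h4, h5, rfl, h7⟩
    · have hu : Ix P (s - p, i, k) := ⟨by show s - p ≤ 6 * P.B; omega, hi, hk⟩
      have hv : Ix P (s' - q, i', k') := ⟨by show s' - q ≤ 6 * P.B; omega, hi', hk'⟩
      have hWp : Wd m e p (s - p, i, k) = z := by
        show m.f^[k] (m.w (e (p + (s - p))) i) = z
        rw [show p + (s - p) = s by omega, hzi]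
      have hWq : Wd m e q (s' - q, i', k') = z := by
        show m.f^[k'] (m.w (e (q + (s' - q))) i') = z
        rw [show q + (s' - q) = s' by omega]
        exact hzi'.symm
      exact ⟨(s - p, i, k), hu, hWp, by rw [hal.1 _ _ hu hv (by rw [hWp, hWq]), hWp]⟩
    · have h8 : v' = v + (q - p) := by
        rcases md (ℓ := q - p) (by omega) h7 (by omega) (by omega) with h | h | h
        · omega
        · exact h
        · omega
      refine ⟨(v - p, P.a, 0), ⟨by show v - p ≤ 6 * P.B; omega, ha, Nat.zero_le _⟩, ?_, ?_⟩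
      · show m.w (e (p + (v - p))) P.a = e v
        rw [hw.2, show p + (v - p) = v by omega]
      · show m.w (e (q + (v - p))) P.a = e v'
        rw [hw.2, show q + (v - p) = v' by omega]
  obtain ⟨L, hL, rfl, rfl⟩ := indices hF
  rw [List.length_map] at hl1 hlr
  exact hal.2 j L hj hl1 hlr hL

theorem pf_CC (_hc : T_HC) : T_CC := by
  intro P α m e M p q s s' ρ ρ' j l l' ha hw _ hpq _ hal hs1 hs2 hs1' hs2' hρ hρ' hj hl1 hlr hl hl' he
  have hB := B_pos ha
  have hlen : l.length = l'.length := by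
    have h := congrArg List.length he
    rwa [List.length_map, List.length_map] at h
  by_cases h1 : s + (q - p) ≤ s' + 2 * P.B
  · exact plus ha hw hpq hal hs1 hs1' hs2' hρ.2.1 hρ'.2.1 hj hl1 hlr hl hl' he h1
  by_cases h2 : s' + (q - p) ≤ s + 2 * P.B
  · exact (plus ha hw hpq hal hs1' hs1 hs2 hρ'.2.1 hρ.2.1 hj (hlen ▸ hl1) (hlen ▸ hlr) hl' hl he.symm
      h2).symm
  have hF : List.Forall₂ (fun z z' => z = z') l l' := by
    refine build (P1 := fun _ => True) (P2 := fun _ => True) ?_ l l' (fun _ _ => trivial)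
      (fun _ _ => trivial) he
    intro z z' _ _ hzz
    rcases pair hzz with h | ⟨v, v', h3, h4, rfl, h5, h6, rfl, h7⟩
    · exact h
    · have hb := hρ.2.1
      have hb' := hρ'.2.1
      rcases md (ℓ := q - p) (by omega) h7 (by omega) (by omega) with h | h | h
      · rw [h]
      · omega
      · omega
  rw [List.forall₂_eq_eq_eq] at hF
  rw [hF]

end Pool.Agent.H7.FX
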